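import Pool.Agent.L7h22.C42.Final

/-!
For every odd prime `p` and every `r ≥ 1` the two truncated hypergeometric sums `A_r(p)` and `B_r(p)`
are congruent modulo `p^(r+4)`.
-/

set_option autoImplicit false

namespace Pool.Agent.Results.MP_c42a9c_nt.TwoSumsCongruent

open Finset

/-- the rising factorial `(x)_k = x (x+1) ⋯ (x+k-1)` -/
def rf (x : ℚ) (k : ℕ) : ℚ := ∏ i ∈ range k, (x + i)

/-- `A_r(p) = ∑_{k=0}^{(p^r-1)/2} (4k+1) (1/2)_k^4 / k!^4` -/
def A (r p : ℕ) : ℚ := ∑ k ∈ range ((p ^ r - 1) / 2 + 1),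
  (4 * (k : ℚ) + 1) * (rf (1 / 2) k ^ 4 / (k.factorial : ℚ) ^ 4)

/-- `B_r(p) = ∑_{k=0}^{p^r-1} (3k+1) (1/2)_k^3 / k!^3 · 2^{2k}` -/
def B (r p : ℕ) : ℚ := ∑ k ∈ range (p ^ r),
  (3 * (k : ℚ) + 1) * (rf (1 / 2) k ^ 3 / (k.factorial : ℚ) ^ 3) * 2 ^ (2 * k)

theorem rf_u (k : ℕ) : rf (1 / 2) k / (k.factorial : ℚ) = L7h22.C42.u k := by
  induction k with
  | zero => simp [rf, L7h22.C42.u_zero]
  | succ k ih =>
    have h := L7h22.C42.u_succ k
    have h1 : rf (1 / 2) (k + 1) = rf (1 / 2) k * (1 / 2 + k) := by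
      unfold rf; rw [prod_range_succ]
    have h2 : (2 * (k : ℚ) + 2) ≠ 0 := by positivity
    have h3 : (k.factorial : ℚ) ≠ 0 := by exact_mod_cast k.factorial_ne_zero
    have h4 : ((k : ℚ) + 1) ≠ 0 := by positivity
    apply mul_right_cancel₀ h2
    rw [h, ← ih, h1, Nat.factorial_succ]
    push_cast
    field_simp
    ring

/-- **Q1 in full.** For every odd prime `p` and every `r ≥ 1`, the number `(A_r(p) - B_r(p))/p^(r+4)`
is a rational number whose denominator is prime to `p`. -/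
theorem result : ∀ p : ℕ, p.Prime → p ≠ 2 → ∀ r : ℕ, 1 ≤ r →
    ¬ p ∣ ((A r p - B r p) / (p : ℚ) ^ (r + 4)).den := by
  intro p hp hp2 r hr
  have : Fact p.Prime := ⟨hp⟩
  have hodd : p % 2 = 1 := by
    rcases hp.eq_two_or_odd with h | h
    · exact absurd h hp2
    · exact h
  obtain ⟨R, hR⟩ : ∃ R, 2 * R + 1 = p ^ r := by
    have h1 : Odd (p ^ r) := (Nat.odd_iff.2 hodd).pow
    obtain ⟨R, hR⟩ := h1
    exact ⟨R, hR.symm⟩
  have key := L7h22.C42.diff_I (p := p) hr hR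
  have hA : A r p = ∑ k ∈ range (R + 1), (4 * (k : ℚ) + 1) * L7h22.C42.u k ^ 4 := by
    unfold A
    rw [← hR, show (2 * R + 1 - 1) / 2 = R by omega]
    refine sum_congr rfl fun k _ => ?_
    rw [← rf_u, div_pow]
  have hB : B r p = ∑ k ∈ range (2 * R + 1), (3 * (k : ℚ) + 1) * L7h22.C42.u k ^ 3 * 4 ^ k := by
    unfold B
    rw [← hR]
    refine sum_congr rfl fun k _ => ?_
    rw [← rf_u, div_pow, pow_mul]
    norm_num
  rw [← hA, ← hB] at key
  obtain ⟨y, hy, e⟩ := key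
  have hp0 : (p : ℚ) ^ (r + 4) ≠ 0 := by
    have : (p : ℚ) ≠ 0 := by exact_mod_cast hp.ne_zero
    positivity
  rw [e, mul_div_cancel_left₀ _ hp0]
  exact hy

end Pool.Agent.Results.MP_c42a9c_nt.TwoSumsCongruent
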